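import Mathlib
import Pool.Agent.Q8.KS.Core5

/-!
MP_f4cece_nt, Q1: finiteness of the points of bounded degree, large relative degree and small
arithmetic degree.
-/

set_option autoImplicit false

open Filter Topology

namespace Pool.Agent.Results.MP_f4cece_nt.FinitelyManyPoints

open Pool.Agent.Q8.KS

/-- Let `X` be a projective variety over a number field `K` with absolute Galois group `G`, let
`π : W → X` be a surjective morphism, `m = dim W`, and let `H₀` be an ample class on `W`. There is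
`κ > 0` such that for all endomorphisms `f` of `X` with first dynamical degree `d₁ > 1`, all ample
classes `A` on `X` with a height `h_A`, all finite morphisms `φ : W → ℙ^m` such that `φ^* O(1)` is
numerically a positive multiple of `H₀`, and all `e`, there are only finitely many points `w` of
`W` with `[K(w) : K] ≤ e`, `[K(w) : K(φ(w))] > (1 - κ) deg φ` and `α_f(π(w)) < d₁`. -/
theorem result {G : Type} [Group G] (X W : Variety G) (π : Morphism W X)
    (hπ : Function.Surjective π.pt) (H₀ : W.Pic) (hH₀ : W.IsAmple H₀) :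
    ∃ κ : ℝ, 0 < κ ∧ ∀ (f : Morphism X X) (A : X.Pic) (h_A : X.Pt → ℝ) (d₁ : ℝ),
      X.IsAmple A → X.IsHeight A h_A → 1 < d₁ → IsDynamicalDegree f A d₁ →
      ∀ φ : Cover W, (∃ t : ℝ, 0 < t ∧ W.cls φ.H = t • W.cls H₀) → ∀ e : ℕ,
        {w : W.Pt | (MulAction.orbit G w).ncard ≤ e ∧ (1 - κ) * φ.N < φ.relDeg w ∧
          ∃ α : ℝ, α < d₁ ∧ IsArithmeticDegree f h_A (π.pt w) α}.Finite := by
  obtain ⟨κ, hκ, h⟩ := finiteness π hπ hH₀
  refine ⟨κ, hκ, ?_⟩
  intro f A h_A d₁ hA hh hd hdyn φ hφ e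
  obtain ⟨C, hC, _, hfin⟩ := h f A h_A d₁ hA hh hd hdyn φ hφ
  refine (hfin e).subset ?_
  rintro w ⟨hw1, hw2, α, hα, hw3⟩
  refine ⟨hw2, ?_, ?_⟩
  · have himage : MulAction.orbit G (φ.φ w) = φ.φ '' MulAction.orbit G w := by
      ext t
      constructor
      · rintro ⟨g, rfl⟩
        exact ⟨g • w, ⟨g, rfl⟩, φ.φ_smul g w⟩
      · rintro ⟨_, ⟨g, rfl⟩, rfl⟩
        exact ⟨g, (φ.φ_smul g w).symm⟩
    have horb : (MulAction.orbit G w).Finite := by
      have h1 : (⋃ t ∈ MulAction.orbit G (φ.φ w), (φ.fib t : Set W.Pt)).Finite :=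
        (φ.orbit_finite (φ.φ w)).biUnion fun t _ => (φ.fib t).finite_toSet
      refine h1.subset ?_
      rintro _ ⟨g, rfl⟩
      refine Set.mem_biUnion (x := g • φ.φ w) ⟨g, rfl⟩ ?_
      rw [Finset.mem_coe, φ.mem_fib]
      exact φ.φ_smul g w
    rw [himage]
    exact (Set.ncard_image_le horb).trans hw1
  · intro h4
    have := tendsto_nhds_unique h4 hw3
    linarith

end Pool.Agent.Results.MP_f4cece_nt.FinitelyManyPoints
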